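import Pool.Agent.Helper64.CT.Stmts

/-! Module BET (MP_866009_co). -/

set_option autoImplicit false

namespace Pool.Agent.Helper64.CT

open Pool.Agent.Helper64.HG (Ovl Model Circ IC HellyCircle)

theorem st_BET : ST_BET := by
  intro V G a c y hac hy hnc hnA z hz
  have hn : ∃ n ∈ Att G c y, ¬ G.Adj a n := by
    by_contra h
    refine hnA ⟨hy, hnc, fun n hn => ?_⟩
    by_contra h'
    exact h ⟨n, hn, h'⟩
  obtain ⟨n, ⟨hcn, u0, hu0, hnu0⟩, han⟩ := hn
  have hnF : n ∈ Far G a := by
    refine ⟨?_, han⟩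
    rintro rfl
    exact hac.2 hcn
  have hca : c ∈ Far G a := Far.symm hac
  have farU : ∀ u, Comp G c y u → u ∈ Far G a := by
    intro u hu
    constructor
    · rintro rfl
      exact hnc hu.symm
    · intro h
      exact hnc (hu.step hac h.symm).symm
  have h0 : Comp G a c u0 := (Comp.adj hca hnF hcn).step (farU u0 hu0) hnu0
  refine Comp.ind (hu0.symm.trans hz) (fun w => Comp G a c w) h0 ?_
  intro z' w hz' hP hw hadj
  exact hP.step (farU w ((hu0.trans hz').step hw hadj)) hadj

end Pool.Agent.Helper64.CT
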