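import Pool.Agent.Helper64.CT.Stmts

/-! Module L2H (MP_866009_co). -/

set_option autoImplicit false

namespace Pool.Agent.Helper64.CT

open Pool.Agent.Helper64.HG (Ovl Model Circ IC HellyCircle)

theorem l2h_bool : ∀ p q r : Bool, p ≠ q → q ≠ r → p = r := by decide

theorem l2h_sub {V : Type} {G : SimpleGraph V} {a c y : V} (hac : a ∈ Far G c)
    (hAl : Alpha G a c y) : ∀ n ∈ Att G c y, n ∈ Att G a c := by
  intro n hn
  exact ⟨hAl.2.2 n hn, c, Comp.refl (Far.symm hac), hn.1.symm⟩

theorem l2h_split {V : Type} {G : SimpleGraph V} {a c y z1 : V} (hac : a ∈ Far G c)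
    (hy : y ∈ Far G c) (hnc : ¬ Comp G c a y) (hz1 : Comp G c y z1) (hne : z1 ≠ y)
    (hno : ∀ u, Comp G c y u → ¬ Mixed G u (Att G c y)) : Split G {u | Comp G c y u} := by
  have hatt : ∀ u b, Comp G c y u → ¬ Comp G c y b → G.Adj u b → b ∈ Att G c y := by
    intro u b hu hb hub
    have h1 : b ∉ Far G c := fun h => hb (hu.step h hub)
    have h2 : b ≠ c := by
      rintro rfl
      exact hu.right.2 hub.symm
    have h3 : G.Adj c b := by
      by_contra h
      exact h1 ⟨h2, h⟩
    exact ⟨h3, u, hu, hub.symm⟩
  refine ⟨?_, ?_, ?_⟩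
  · intro u hu u' hu' b hb b' hb' hub hub'
    have h1 := hatt u b hu hb hub
    have h2 := hatt u' b' hu' hb' hub'
    by_contra h
    exact hno u hu ⟨⟨b, h1, hub⟩, b', h2, h⟩
  · exact ⟨y, Comp.refl hy, z1, hz1, hne.symm⟩
  · refine ⟨a, fun h => hnc (Comp.symm h), c, fun h => ?_, hac.1⟩
    exact (Comp.right h).1 rfl

theorem st_L2H (hLC : ST_LC) (hALS : ST_ALS) (hBET : ST_BET) (hL1 : ST_L1) : ST_L2H := by
  intro V G s hpre hTF hCI hPr hSys a c y hac hAl
  have hca : c ∈ Far G a := Far.symm hac
  have hclu := hLC V G hpre hTF hPr c y hAl.1 a hac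
  revert hAl
  refine Relation.ReflTransGen.head_induction_on (motive := fun y _ => Alpha G a c y →
    (s a y = s a c ∧ s c y ≠ s c a) ∨ (s a y ≠ s a c ∧ s c y = s c a) ∨
    (s c y = s c a ∧ (∀ z, Comp G c y z → z = y) ∧ Att G a c = Att G c y ∧
      ∃ u, Comp G a c u ∧ Mixed G u (Att G c y))) hclu ?_ ?_
  · intro h
    exact absurd (Comp.refl hac) h.2.1
  · intro y y1 hR _ ih hAl
    obtain ⟨hA1, hA2, hA3⟩ := hALS V G a c y hac hAl
    rcases hR with hR | hR
    · have hAl1 : Alpha G a c y1 := by
        refine ⟨hR.right, fun h => hAl.2.1 (h.trans hR.symm), ?_⟩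
        rw [← Att.congr hR]
        exact hAl.2.2
      have hc := (hSys c).1 y y1 hR
      have ha := (hSys a).1 y y1 ((hA2 y1).2 hR)
      rcases ih hAl1 with h | h | h
      · left
        rw [hc, ha]
        exact h
      · right; left
        rw [hc, ha]
        exact h
      · right; right
        have e : y = y1 := h.2.1 y hR.symm
        subst e
        exact h
    · have hc : s c y ≠ s c y1 := (hSys c).2 y y1 hR
      by_cases hA : Comp G c a y1
      · left
        obtain ⟨_, _, a', ha', hm⟩ := hR
        refine ⟨hL1 V G s hTF hCI hSys a c y a' hac hAl (hA.trans ha') hm, ?_⟩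
        rw [(hSys c).1 a y1 hA]
        exact hc
      · by_cases hB : Alpha G a c y1
        · obtain ⟨hB1, hB2, hB3⟩ := hALS V G a c y1 hac hB
          have hcf : Conf G a y y1 := by
            obtain ⟨h1, ⟨u, hu, hm⟩, w, hw, hm'⟩ := hR
            refine ⟨fun h => h1 ((hA2 y1).1 h), ⟨u, (hA2 u).2 hu, ?_⟩, w, (hB2 w).2 hw, ?_⟩
            · rw [hB3]; exact hm
            · rw [hA3]; exact hm'
          have ha : s a y ≠ s a y1 := (hSys a).2 y y1 hcf
          rcases ih hB with h | h | h
          · right; left
            refine ⟨?_, l2h_bool _ _ _ hc h.2⟩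
            rw [← h.1]
            exact ha
          · left
            refine ⟨l2h_bool _ _ _ ha h.1, ?_⟩
            rw [← h.2]
            exact hc
          · exfalso
            obtain ⟨_, _, u, hu, hm⟩ := hR
            have e := h.2.1 u hu
            subst e
            obtain ⟨_, n, hn, hnn⟩ := hm
            have h1 := l2h_sub hac hAl n hn
            rw [h.2.2.1] at h1
            obtain ⟨_, w, hw, hnw⟩ := h1
            have e := h.2.1 w hw
            subst e
            exact hnn hnw.symm
        · have hy1 : y1 ∈ Far G c := hR.far.2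
          have hbet := hBET V G a c y1 hac hy1 hA hB
          obtain ⟨_, _, z, hz, hm⟩ := hR
          have hcz := hbet z hz
          have hm' : Mixed G z (Att G a y) := by rw [hA3]; exact hm
          have hsc : s c y = s c a := hL1 V G s hTF hCI hSys c a y z hca hA1 hcz hm'
          right
          by_cases hu : ∃ u, Comp G a y u ∧ Mixed G u (Att G a c)
          · left
            refine ⟨(hSys a).2 y c ⟨fun h => hA1.2.1 h.symm, hu, z, hcz, hm'⟩, hsc⟩
          · right
            have hsub := l2h_sub hac hAl
            have heq : Att G a c = Att G c y := by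
              apply Set.Subset.antisymm
              · intro n hn
                obtain ⟨⟨n0, hn0, _⟩, _⟩ := hm
                obtain ⟨h1, u0, hu0, hnu0⟩ := hn0
                have h2 : n0 ∈ Att G a c := hsub n0 ⟨h1, u0, hu0, hnu0⟩
                have h3 : G.Adj u0 n := by
                  by_contra h
                  exact hu ⟨u0, (hA2 u0).2 hu0, ⟨n0, h2, hnu0.symm⟩, n, hn, h⟩
                rw [← hA3]
                exact ⟨hn.1, u0, (hA2 u0).2 hu0, h3.symm⟩
              · exact hsub
            refine ⟨hsc, ?_, heq, z, hcz, hm⟩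
            by_contra hne
            obtain ⟨z1, hz1⟩ := Classical.not_forall.1 hne
            obtain ⟨hz1, hz2⟩ := Classical.not_imp.1 hz1
            refine hPr _ (l2h_split hac hAl.1 hAl.2.1 hz1 hz2 ?_)
            intro u hu1 hu2
            rw [← heq] at hu2
            exact hu ⟨u, (hA2 u).2 hu1, hu2⟩

end Pool.Agent.Helper64.CT
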